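import Pool.Agent.Lib_helper2.K4.Fin

set_option autoImplicit false
set_option linter.unusedSectionVars false

/-!
Hecke operators.  `e : A → A → V` satisfies the Manin relations and the distribution relations
`k ∑_{i ∈ A[k]} e(a, b+i) = e(a, kb)` for every `k ≥ 1`.  Then, for a prime `l`,
`l ∑_{C} ∑_{c, c' ∈ C} e(a+c, b+c')`, the sum over the subgroups `C` of order `l`, is the sum of
`e((a,b)M)` over Merel's matrices `M` of determinant `l`.
-/

namespace Pool.Agent.K4TL

open Finset Pool.Agent.K4Fin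

variable {A V : Type*} [AddCommGroup A] [AddCommGroup V] [Module ℚ V]

/-- `T k` is the set of the elements killed by `k`, and `A` is `k`-divisible, for `k ≥ 1`. -/
structure IsTors (T : ℕ → Finset A) : Prop where
  mem : ∀ k, 0 < k → ∀ i, i ∈ T k ↔ k • i = 0
  div : ∀ k, 0 < k → ∀ a : A, ∃ b, k • b = a

/-- The Manin relations and the distribution relations. -/
structure Dist (T : ℕ → Finset A) (e : A → A → V) : Prop extends ManinSym e where
  d2 : ∀ k : ℕ, 0 < k → ∀ a b, (k : ℚ) • ∑ i ∈ T k, e a (b + i) = e a (k • b)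

section basic

variable {T : ℕ → Finset A} {e : A → A → V}

lemma Dist.d2' (h : Dist T e) {k : ℕ} (hk : 0 < k) (a b : A) :
    (k : ℚ) • ∑ i ∈ T k, e (a + i) b = e (k • a) b := by
  rw [h.sym b (k • a), ← h.d2 k hk b a]
  congr 1
  exact sum_congr rfl fun i _ => h.sym b (a + i)

lemma neg_mem (hT : IsTors T) {k : ℕ} (hk : 0 < k) {i : A} (hi : i ∈ T k) : -i ∈ T k := by
  rw [hT.mem k hk] at hi ⊢
  rw [smul_neg, hi, neg_zero]

lemma sum_neg (hT : IsTors T) {k : ℕ} (hk : 0 < k) (f : A → V) :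
    ∑ i ∈ T k, f (-i) = ∑ i ∈ T k, f i :=
  sum_nbij' (fun i => -i) (fun i => -i) (fun _ hi => neg_mem hT hk hi)
    (fun _ hi => neg_mem hT hk hi) (fun i _ => neg_neg i) (fun i _ => neg_neg i)
    (fun _ _ => rfl)

/-- The three term relation of a triangle of determinants `1, 1, m`. -/
lemma G3 (h : Dist T e) {m : ℕ} (hm : 0 < m) (x y y0 : A) (hy : m • y0 = y) :
    e x y = e x (y + m • x) + (m : ℚ) • ∑ j ∈ T m, e (x + y0 + j) (y0 + j) := by
  have h1 : ∀ j ∈ T m, e (x + y0 + j) (y0 + j) = e x (y0 + j) - e x (x + y0 + j) := by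
    intro j _
    have := h.add_rule x (y0 + j)
    rw [← add_assoc] at this
    rw [this, h.sym (x + y0 + j) (y0 + j)]
    abel
  rw [sum_congr rfl h1, sum_sub_distrib, smul_sub, h.d2 m hm, h.d2 m hm, hy, smul_add, hy,
    add_comm (m • x) y]
  abel

end basic

section sets

/-- the matrices of the coset `v`; `M = (p, r, q, s)`, columns `(p, r)` and `(q, s)` -/
def X (m v : ℕ) : Finset (ℕ × ℕ × ℕ × ℕ) :=
  (range (m + 1) ×ˢ range (m + 1) ×ˢ range (m + 1) ×ˢ range (m + 1)).filter fun M =>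
    M.2.2.1 < M.1 ∧ M.2.1 < M.2.2.2 ∧ M.1 * M.2.2.2 = M.2.2.1 * M.2.1 + m ∧
      m ∣ M.1 + M.2.1 * v ∧ m ∣ M.2.2.1 + M.2.2.2 * v

lemma bound {p r q s m : ℕ} (h1 : q < p) (h2 : r < s) (h3 : p * s = q * r + m) :
    p + r ≤ m ∧ s + q ≤ m := by
  have h4 : q + 1 ≤ p := h1
  have h5 : r + 1 ≤ s := h2
  constructor
  · have : q * r ≤ (p - 1) * r := Nat.mul_le_mul_right r (by omega)
    have h6 : p * (r + 1) ≤ p * s := Nat.mul_le_mul_left p h5
    obtain ⟨p', rfl⟩ : ∃ p', p = p' + 1 := ⟨p - 1, by omega⟩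
    simp only [Nat.add_sub_cancel] at this
    nlinarith
  · have : q * r ≤ q * (s - 1) := Nat.mul_le_mul_left q (by omega)
    have h6 : (q + 1) * s ≤ p * s := Nat.mul_le_mul_right s h4
    obtain ⟨s', rfl⟩ : ∃ s', s = s' + 1 := ⟨s - 1, by omega⟩
    simp only [Nat.add_sub_cancel] at this
    nlinarith

lemma mem_X {m v p r q s : ℕ} : (p, r, q, s) ∈ X m v ↔
    q < p ∧ r < s ∧ p * s = q * r + m ∧ m ∣ p + r * v ∧ m ∣ q + s * v := by
  unfold X
  simp only [mem_filter, mem_product, mem_range]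
  constructor
  · rintro ⟨-, h⟩; exact h
  · rintro h
    obtain ⟨h1, h2, h3, -, -⟩ := id h
    obtain ⟨h4, h5⟩ := bound h1 h2 h3
    exact ⟨⟨by omega, by omega, by omega, by omega⟩, h⟩

lemma X_one (v : ℕ) : X 1 v = {(1, 0, 0, 1)} := by
  ext ⟨p, r, q, s⟩
  rw [mem_X, mem_singleton]
  constructor
  · rintro ⟨h1, h2, h3, -, -⟩
    obtain ⟨h4, h5⟩ := bound h1 h2 h3
    have : p = 1 ∧ r = 0 ∧ q = 0 ∧ s = 1 := by omega
    obtain ⟨rfl, rfl, rfl, rfl⟩ := this
    rfl
  · intro h
    simp only [Prod.mk.injEq] at h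
    obtain ⟨rfl, rfl, rfl, rfl⟩ := h
    simp

/-- the map of the recursion -/
def phi (m m' : ℕ) (M : ℕ × ℕ × ℕ × ℕ) : ℕ × ℕ × ℕ × ℕ :=
  (M.1, (M.1 + M.2.1 * m) / m', M.2.2.1, (M.2.2.1 + M.2.2.2 * m) / m')

/-- its inverse -/
def psi (m m' : ℕ) (M : ℕ × ℕ × ℕ × ℕ) : ℕ × ℕ × ℕ × ℕ :=
  (M.1, (m' * M.2.1 - M.1) / m, M.2.2.1, (m' * M.2.2.2 - M.2.2.1) / m)

lemma phi_mem {m m' v p r q s : ℕ} (hm' : 0 < m') (hlt : m' < m) (hv : m ∣ m' + v)
    (hM : (p, r, q, s) ∈ X m' m) : phi m m' (p, r, q, s) ∈ X m v ∧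
      0 < (p + r * m) / m' ∧ m' * ((p + r * m) / m') = p + r * m ∧
      m' * ((q + s * m) / m') = q + s * m := by
  rw [mem_X] at hM
  obtain ⟨h1, h2, h3, ⟨b, hb⟩, ⟨c, hc⟩⟩ := hM
  obtain ⟨h4, h5⟩ := bound h1 h2 h3
  have eb : (p + r * m) / m' = b := by rw [hb]; exact Nat.mul_div_cancel_left b hm'
  have ec : (q + s * m) / m' = c := by rw [hc]; exact Nat.mul_div_cancel_left c hm'
  unfold phi
  simp only [eb, ec]
  refine ⟨?_, ?_, hb.symm, hc.symm⟩
  · rw [mem_X]
    refine ⟨h1, ?_, ?_, ?_, ?_⟩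
    · -- b < c
      have : m' * b < m' * c := by
        rw [← hb, ← hc]
        have h6 : (r + 1) * m ≤ s * m := Nat.mul_le_mul_right m h2
        nlinarith
      exact lt_of_mul_lt_mul_left this (Nat.zero_le m')
    · -- p c = q b + m
      have : m' * (p * c) = m' * (q * b + m) := by
        have e1 : m' * (p * c) = p * (m' * c) := by ring
        have e2 : m' * (q * b + m) = q * (m' * b) + m' * m := by ring
        rw [e1, e2, ← hb, ← hc]
        have e3 : p * (q + s * m) = p * q + (p * s) * m := by ring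
        rw [e3, h3]; ring
      exact Nat.eq_of_mul_eq_mul_left hm' this
    · -- m | p + b v
      have h7 : m ∣ (m' + v) * b := Dvd.dvd.mul_right hv b
      have h8 : (m' + v) * b = (p + b * v) + r * m := by
        rw [add_mul, ← hb]; ring
      rw [h8] at h7
      exact (Nat.dvd_add_left (Dvd.intro_left r rfl)).mp h7
    · have h7 : m ∣ (m' + v) * c := Dvd.dvd.mul_right hv c
      have h8 : (m' + v) * c = (q + c * v) + s * m := by
        rw [add_mul, ← hc]; ring
      rw [h8] at h7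
      exact (Nat.dvd_add_left (Dvd.intro_left s rfl)).mp h7
  · rcases Nat.eq_zero_or_pos b with h | h
    · rw [h, mul_zero] at hb
      omega
    · exact h

lemma psi_mem {m m' v p r q s : ℕ} (hm' : 0 < m') (hlt : m' < m) (hv : m ∣ m' + v)
    (hM : (p, r, q, s) ∈ X m v) (hr : 0 < r) : psi m m' (p, r, q, s) ∈ X m' m ∧
      m' * r = p + ((m' * r - p) / m) * m ∧ m' * s = q + ((m' * s - q) / m) * m := by
  rw [mem_X] at hM
  obtain ⟨h1, h2, h3, h6, h7⟩ := hM
  obtain ⟨h4, h5⟩ := bound h1 h2 h3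
  have hm : 0 < m := by omega
  -- general fact
  have key : ∀ a c : ℕ, a < m → 0 < c → m ∣ a + c * v → ∃ b, m' * c = a + b * m := by
    intro a c ha hc hd
    have h8 : (m : ℤ) ∣ (m' : ℤ) * c - a := by
      have e1 : (m : ℤ) ∣ ((m' : ℤ) + v) * c := Dvd.dvd.mul_right (by exact_mod_cast hv) _
      have e2 : (m : ℤ) ∣ (a : ℤ) + c * v := by exact_mod_cast hd
      have e3 := dvd_sub e1 e2
      have e4 : ((m' : ℤ) + v) * c - ((a : ℤ) + c * v) = (m' : ℤ) * c - a := by ring
      rwa [e4] at e3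
    obtain ⟨k, hk⟩ := h8
    have hk0 : 0 ≤ k := by
      by_contra hneg
      have : k ≤ -1 := by omega
      have h9 : (m : ℤ) * k ≤ -(m : ℤ) := by nlinarith
      have h10 : (0 : ℤ) ≤ (m' : ℤ) * c := by positivity
      have h11 : (a : ℤ) < m := by exact_mod_cast ha
      omega
    obtain ⟨b, rfl⟩ := Int.eq_ofNat_of_zero_le hk0
    refine ⟨b, ?_⟩
    have : ((m' * c : ℕ) : ℤ) = ((a + b * m : ℕ) : ℤ) := by
      push_cast; linarith
    exact_mod_cast this
  obtain ⟨b, hb⟩ := key p r (by omega) hr h6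
  obtain ⟨c, hc⟩ := key q s (by omega) (by omega) h7
  have eb : (m' * r - p) / m = b := by
    rw [hb, Nat.add_sub_cancel_left]; exact Nat.mul_div_cancel b hm
  have ec : (m' * s - q) / m = c := by
    rw [hc, Nat.add_sub_cancel_left]; exact Nat.mul_div_cancel c hm
  unfold psi
  simp only [eb, ec]
  refine ⟨?_, hb, hc⟩
  rw [mem_X]
  refine ⟨h1, ?_, ?_, ?_, ?_⟩
  · have : b * m < c * m := by
      have h8 : m' * (r + 1) ≤ m' * s := Nat.mul_le_mul_left m' h2
      nlinarith
    exact lt_of_mul_lt_mul_right this (Nat.zero_le m)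
  · have : m * (p * c) = m * (q * b + m') := by
      have e1 : m * (p * c) + p * q = p * (q + c * m) := by ring
      have e2 : m * (q * b + m') + p * q = q * (p + b * m) + m' * m := by ring
      have e3 : p * (q + c * m) = q * (p + b * m) + m' * m := by
        rw [← hb, ← hc]
        have e4 : p * (m' * s) = m' * (p * s) := by ring
        rw [e4, h3]; ring
      omega
    exact Nat.eq_of_mul_eq_mul_left hm this
  · rw [← hb]; exact Dvd.intro _ rfl
  · rw [← hc]; exact Dvd.intro _ rfl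

lemma first_mem {m m' v : ℕ} (hm' : 0 < m') (hlt : m' < m) (hv : m ∣ m' + v) :
    (m, 0, m', 1) ∈ X m v := by
  rw [mem_X]
  refine ⟨hlt, Nat.one_pos, by ring, ?_, ?_⟩
  · rw [zero_mul, add_zero]
  · rw [one_mul]; exact hv

lemma first_of_zero {m m' v p q s : ℕ} (hlt : m' < m) (hv : m ∣ m' + v)
    (hM : (p, 0, q, s) ∈ X m v) : (p, 0, q, s) = (m, 0, m', 1) := by
  rw [mem_X] at hM
  obtain ⟨h1, h2, h3, h4, h5⟩ := hM
  have hm : 0 < m := by omega
  rw [mul_zero, zero_add] at h3
  rw [zero_mul, add_zero] at h4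
  have hp : p = m := Nat.dvd_antisymm ⟨s, h3.symm⟩ h4
  subst hp
  have hs : s = 1 := by
    have : p * s = p * 1 := by rw [h3, mul_one]
    exact Nat.eq_of_mul_eq_mul_left hm this
  subst hs
  have hq : q = m' := by
    rw [one_mul] at h5
    have e1 : (p : ℤ) ∣ (q : ℤ) - m' := by
      have e2 : (p : ℤ) ∣ (q : ℤ) + v := by exact_mod_cast h5
      have e3 : (p : ℤ) ∣ (m' : ℤ) + v := by exact_mod_cast hv
      have e4 := dvd_sub e2 e3
      have e5 : (q : ℤ) + v - (m' + v) = q - m' := by ring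
      rwa [e5] at e4
    have e6 := Int.eq_zero_of_abs_lt_dvd e1 (by
      rw [abs_lt]; constructor <;> omega)
    omega
  rw [hq]

/-- The recursion of the sets. -/
lemma X_rec {W : Type*} [AddCommMonoid W] {m m' v : ℕ} (hm' : 0 < m') (hlt : m' < m)
    (hv : m ∣ m' + v) (f : ℕ × ℕ × ℕ × ℕ → W) :
    ∑ M ∈ X m v, f M = f (m, 0, m', 1) + ∑ M ∈ X m' m, f (phi m m' M) := by
  classical
  rw [← add_sum_erase _ f (first_mem hm' hlt hv)]
  congr 1
  have hm : 0 < m := by omega
  refine sum_nbij' (psi m m') (phi m m') ?_ ?_ ?_ ?_ ?_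
  · rintro ⟨p, r, q, s⟩ hM
    rw [mem_erase] at hM
    refine (psi_mem hm' hlt hv hM.2 ?_).1
    rcases Nat.eq_zero_or_pos r with h | h
    · subst h; exact absurd (first_of_zero hlt hv hM.2) hM.1
    · exact h
  · rintro ⟨p, r, q, s⟩ hM
    obtain ⟨h1, h2, -, -⟩ := phi_mem hm' hlt hv hM
    rw [mem_erase]
    refine ⟨?_, h1⟩
    intro h
    unfold phi at h
    simp only [Prod.mk.injEq] at h
    omega
  · rintro ⟨p, r, q, s⟩ hM
    rw [mem_erase] at hM
    have hr : 0 < r := by
      rcases Nat.eq_zero_or_pos r with h | h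
      · subst h; exact absurd (first_of_zero hlt hv hM.2) hM.1
      · exact h
    obtain ⟨-, h2, h3⟩ := psi_mem hm' hlt hv hM.2 hr
    unfold phi psi
    simp only
    rw [← h2, ← h3, Nat.mul_div_cancel_left _ hm', Nat.mul_div_cancel_left _ hm']
  · rintro ⟨p, r, q, s⟩ hM
    obtain ⟨-, -, h3, h4⟩ := phi_mem hm' hlt hv hM
    unfold phi psi
    simp only
    rw [h3, h4, Nat.add_sub_cancel_left, Nat.add_sub_cancel_left, Nat.mul_div_cancel _ hm,
      Nat.mul_div_cancel _ hm]
  · rintro ⟨p, r, q, s⟩ hM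
    rw [mem_erase] at hM
    have hr : 0 < r := by
      rcases Nat.eq_zero_or_pos r with h | h
      · subst h; exact absurd (first_of_zero hlt hv hM.2) hM.1
      · exact h
    obtain ⟨-, h2, h3⟩ := psi_mem hm' hlt hv hM.2 hr
    congr 1
    unfold phi psi
    simp only
    rw [← h2, ← h3, Nat.mul_div_cancel_left _ hm', Nat.mul_div_cancel_left _ hm']

end sets

section main

variable {T : ℕ → Finset A} {e : A → A → V}

/-- value of `e` at `(x, y) M` -/
def ev (e : A → A → V) (x y : A) (M : ℕ × ℕ × ℕ × ℕ) : V :=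
  e (M.1 • x + M.2.1 • y) (M.2.2.1 • x + M.2.2.2 • y)

lemma T_one (hT : IsTors T) : T 1 = {0} := by
  ext i
  rw [hT.mem 1 Nat.one_pos, one_smul, mem_singleton]

/-- The sum over one coset. -/
theorem coset (hT : IsTors T) (h : Dist T e) : ∀ m : ℕ, 0 < m → ∀ v : ℕ, Nat.Coprime m v →
    ∀ x y : A, (m : ℚ) • ∑ i ∈ T m, e (x + i) (y + v • i) = ∑ M ∈ X m v, ev e x y M := by
  intro m
  induction m using Nat.strong_induction_on with
  | _ m ih =>
    intro hm v hco x y
    rcases Nat.lt_or_ge 1 m with hm1 | hm1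
    · -- the recursion
      have hv0 : v % m ≠ 0 := by
        intro h0
        have : m ∣ v := Nat.dvd_of_mod_eq_zero h0
        have := Nat.eq_one_of_dvd_coprimes hco (dvd_refl m) this
        omega
      have hvl : v % m < m := Nat.mod_lt v hm
      obtain ⟨m', hm'⟩ : ∃ m', m' = m - v % m := ⟨_, rfl⟩
      have h0 : 0 < m' := by omega
      have h1 : m' < m := by omega
      have hv : m ∣ m' + v := by
        have h2 : m' + v = m + m * (v / m) := by
          have h3 := Nat.div_add_mod v m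
          omega
        rw [h2]
        exact Dvd.intro (1 + v / m) (by ring)
      have hco' : Nat.Coprime m' m := by
        have hg1 : Nat.gcd m' m ∣ m' := Nat.gcd_dvd_left m' m
        have hg2 : Nat.gcd m' m ∣ m := Nat.gcd_dvd_right m' m
        have hg3 : Nat.gcd m' m ∣ v := (Nat.dvd_add_right hg1).mp (hg2.trans hv)
        exact Nat.eq_one_of_dvd_coprimes hco hg2 hg3
      obtain ⟨y0, hy0⟩ := hT.div m' h0 y
      rw [X_rec h0 h1 hv]
      have step : ∀ i ∈ T m, e (x + i) (y + v • i) = e (x + i) (y + m' • x) +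
          (m' : ℚ) • ∑ j ∈ T m', e (x + y0 + j) (y0 + j + -i) := by
        intro i hi
        rw [hT.mem m hm] at hi
        have hvi : m' • i + v • i = 0 := by
          obtain ⟨c, hc⟩ := hv
          rw [← add_smul, hc, mul_comm, mul_smul, hi, smul_zero]
        have e1 : m' • (y0 - i) = y + v • i := by
          rw [smul_sub, hy0, sub_eq_add_neg, neg_eq_of_add_eq_zero_right hvi]
        rw [G3 h h0 (x + i) (y + v • i) (y0 - i) e1]
        have e2 : y + v • i + m' • (x + i) = y + m' • x := by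
          rw [smul_add]
          calc y + v • i + (m' • x + m' • i) = y + m' • x + (m' • i + v • i) := by abel
            _ = y + m' • x := by rw [hvi, add_zero]
        rw [e2]
        congr 2
        refine sum_congr rfl fun j _ => ?_
        congr 1
        · abel
        · abel
      rw [sum_congr rfl step, sum_add_distrib, smul_add, h.d2' hm]
      congr 1
      · unfold ev
        simp only [zero_smul, add_zero, one_smul]
        rw [add_comm]
      · rw [← smul_sum, sum_comm, smul_comm]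
        have e3 : ∀ j ∈ T m', ∑ i ∈ T m, e (x + y0 + j) (y0 + j + -i) =
            (m : ℚ)⁻¹ • e (x + y0 + j) (m • y0 + m • j) := by
          intro j _
          rw [sum_neg hT hm (fun i => e (x + y0 + j) (y0 + j + i)), ← smul_add, ← h.d2 m hm,
            smul_smul, inv_mul_cancel₀ (by exact_mod_cast hm.ne'), one_smul]
        rw [sum_congr rfl e3, ← smul_sum, smul_comm (m : ℚ), smul_smul (m : ℚ)⁻¹,
          inv_mul_cancel₀ (by exact_mod_cast hm.ne' : (m : ℚ) ≠ 0), one_smul,
          ih m' h1 h0 m hco' (x + y0) (m • y0)]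
        refine sum_congr rfl fun M hM => ?_
        obtain ⟨p, r, q, s⟩ := M
        obtain ⟨-, -, h5, h6⟩ := phi_mem h0 h1 hv hM
        unfold ev phi
        simp only
        have e4 : ∀ a b c : ℕ, m' * c = a + b * m →
            a • (x + y0) + b • m • y0 = a • x + c • y := by
          intro a b c hc
          rw [smul_add, ← mul_smul, add_assoc, ← add_smul, ← hc, mul_comm m' c, mul_smul, hy0]
        rw [e4 p r _ h5, e4 q s _ h6]
    · obtain rfl : m = 1 := by omega
      rw [X_one, T_one hT, sum_singleton, sum_singleton]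
      unfold ev
      simp

/-- Merel's matrices of determinant `l` : `M = (p, r, q, s)`, columns `(p, r)` and `(q, s)` -/
def XX (l : ℕ) : Finset (ℕ × ℕ × ℕ × ℕ) :=
  (range (l + 1) ×ˢ range (l + 1) ×ˢ range (l + 1) ×ˢ range (l + 1)).filter fun M =>
    M.2.2.1 < M.1 ∧ M.2.1 < M.2.2.2 ∧ M.1 * M.2.2.2 = M.2.2.1 * M.2.1 + l

lemma mem_XX {l p r q s : ℕ} : (p, r, q, s) ∈ XX l ↔ q < p ∧ r < s ∧ p * s = q * r + l := by
  unfold XX
  simp only [mem_filter, mem_product, mem_range]
  constructor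
  · rintro ⟨-, h⟩; exact h
  · rintro h
    obtain ⟨h1, h2, h3⟩ := id h
    obtain ⟨h4, h5⟩ := bound h1 h2 h3
    exact ⟨⟨by omega, by omega, by omega, by omega⟩, h⟩

lemma X_zero {l : ℕ} (hl : 0 < l) : X l 0 = {(l, 0, 0, 1)} := by
  ext ⟨p, r, q, s⟩
  rw [mem_X, mem_singleton]
  constructor
  · rintro ⟨h1, h2, h3, h4, h5⟩
    obtain ⟨h6, h7⟩ := bound h1 h2 h3
    rw [mul_zero, add_zero] at h4 h5
    have hp : p = l := le_antisymm (by omega) (Nat.le_of_dvd (by omega) h4)
    subst hp
    have hq : q = 0 := Nat.eq_zero_of_dvd_of_lt h5 h1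
    subst hq
    have hr : r = 0 := by omega
    subst hr
    rw [zero_mul, zero_add] at h3
    have hs : s = 1 := by
      have : p * s = p * 1 := by rw [h3, mul_one]
      exact Nat.eq_of_mul_eq_mul_left hl this
    subst hs
    rfl
  · intro h
    simp only [Prod.mk.injEq] at h
    obtain ⟨rfl, rfl, rfl, rfl⟩ := h
    simp [hl]

/-- the matrices of determinant `l`, coset by coset -/
lemma XX_split {l : ℕ} (hl : l.Prime) (f : ℕ × ℕ × ℕ × ℕ → V) :
    ∑ M ∈ XX l, f M = ∑ v ∈ range l, ∑ M ∈ X l v, f M + f (1, 0, 0, l) := by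
  classical
  have hl0 : 0 < l := hl.pos
  have hl1 : 1 < l := hl.one_lt
  have hmem : (1, 0, 0, l) ∈ XX l := by
    rw [mem_XX]; refine ⟨Nat.one_pos, hl0, by ring⟩
  rw [← sum_erase_add _ f hmem]
  congr 1
  have hun : (XX l).erase (1, 0, 0, l) = (range l).biUnion fun v => X l v := by
    ext ⟨p, r, q, s⟩
    rw [mem_erase, mem_biUnion, mem_XX]
    constructor
    · rintro ⟨hne, h1, h2, h3⟩
      obtain ⟨h4, h5⟩ := bound h1 h2 h3
      -- the inverse modulo `l`
      have inv : ∀ c d : ℕ, ¬ l ∣ c → ∃ v : ℕ, v < l ∧ (l : ℤ) ∣ (d : ℤ) + c * v := by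
        intro c d hc
        have hcop : IsCoprime (c : ℤ) (l : ℤ) := by
          rw [Nat.isCoprime_iff_coprime]
          exact ((Nat.Prime.coprime_iff_not_dvd hl).mpr hc).symm
        obtain ⟨a, b, hab⟩ := hcop
        obtain ⟨v, hv⟩ : ∃ v : ℕ, (v : ℤ) = (-(d : ℤ) * a) % l :=
          ⟨((-(d : ℤ) * a) % l).toNat, Int.toNat_of_nonneg (Int.emod_nonneg _ (by omega))⟩
        refine ⟨v, ?_, ?_⟩
        · have := Int.emod_lt_of_pos (-(d : ℤ) * a) (by exact_mod_cast hl0 : (0 : ℤ) < l)
          omega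
        · have hdv : (l : ℤ) ∣ (v : ℤ) + d * a := by
            rw [hv]
            have := Int.emod_add_mul_ediv (-(d : ℤ) * a) l
            have e1 : (-(d : ℤ) * a) % l + d * a = l * (-(-(d : ℤ) * a / l)) := by linarith
            rw [e1]
            exact Dvd.intro _ rfl
          have e2 : (d : ℤ) + c * v = c * (v + d * a) + d * l * b := by
            have : (d : ℤ) * (a * c + b * l) = d := by rw [hab, mul_one]
            linear_combination (-1 : ℤ) * this
          rw [e2]
          exact dvd_add (Dvd.dvd.mul_left hdv _) ⟨d * b, by ring⟩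
      have h3' : (p : ℤ) * s = q * r + l := by exact_mod_cast h3
      have hcopr : ∀ c : ℕ, ¬ l ∣ c → IsCoprime (l : ℤ) (c : ℤ) := by
        intro c hc
        rw [Nat.isCoprime_iff_coprime]
        exact (Nat.Prime.coprime_iff_not_dvd hl).mpr hc
      obtain ⟨v, hvl, hpr, hqs⟩ : ∃ v : ℕ, v < l ∧ (l : ℤ) ∣ (p : ℤ) + r * v ∧
          (l : ℤ) ∣ (q : ℤ) + s * v := by
        by_cases hs : l ∣ s
        · have hr : ¬ l ∣ r := by
            intro hr
            have hr0 : r = 0 := Nat.eq_zero_of_dvd_of_lt hr (by omega)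
            subst hr0
            have hs1 : s = l := le_antisymm (by omega) (Nat.le_of_dvd (by omega) hs)
            have hq : q = 0 := by omega
            subst hs1 hq
            rw [zero_mul, zero_add] at h3
            have hp : p = 1 := by
              have : s * p = s * 1 := by rw [mul_comm, h3, mul_one]
              exact Nat.eq_of_mul_eq_mul_left hl0 this
            subst hp
            exact hne rfl
          obtain ⟨v, hvl, hpr⟩ := inv r p hr
          refine ⟨v, hvl, hpr, ?_⟩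
          have e3 : (r : ℤ) * (q + s * v) = s * (p + r * v) - l := by linear_combination -h3'
          have e4 : (l : ℤ) ∣ r * (q + s * v) := by
            rw [e3]; exact dvd_sub (Dvd.dvd.mul_left hpr _) (dvd_refl _)
          exact IsCoprime.dvd_of_dvd_mul_left (hcopr r hr) e4
        · obtain ⟨v, hvl, hqs⟩ := inv s q hs
          refine ⟨v, hvl, ?_, hqs⟩
          have e3 : (s : ℤ) * (p + r * v) = r * (q + s * v) + l := by linear_combination h3'
          have e4 : (l : ℤ) ∣ s * (p + r * v) := by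
            rw [e3]; exact dvd_add (Dvd.dvd.mul_left hqs _) (dvd_refl _)
          exact IsCoprime.dvd_of_dvd_mul_left (hcopr s hs) e4
      refine ⟨v, mem_range.mpr hvl, ?_⟩
      rw [mem_X]
      exact ⟨h1, h2, h3, by exact_mod_cast hpr, by exact_mod_cast hqs⟩
    · rintro ⟨v, hv, hM⟩
      rw [mem_X] at hM
      obtain ⟨h1, h2, h3, h4, h5⟩ := hM
      refine ⟨?_, h1, h2, h3⟩
      intro h
      simp only [Prod.mk.injEq] at h
      obtain ⟨rfl, rfl, rfl, rfl⟩ := h
      rw [zero_mul, add_zero] at h4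
      have := Nat.le_of_dvd Nat.one_pos h4
      omega
  rw [hun, sum_biUnion]
  intro v hv w hw hvw
  rw [Function.onFun, disjoint_left]
  rintro ⟨p, r, q, s⟩ h1 h2
  apply hvw
  rw [mem_X] at h1 h2
  obtain ⟨g1, g2, g3, g4, g5⟩ := h1
  obtain ⟨-, -, -, g6, g7⟩ := h2
  have hvl := mem_range.mp hv
  have hwl := mem_range.mp hw
  -- l | s (v - w), r (v - w)
  have e1 : (l : ℤ) ∣ s * ((v : ℤ) - w) := by
    have a1 : (l : ℤ) ∣ (q : ℤ) + s * v := by exact_mod_cast g5
    have a2 : (l : ℤ) ∣ (q : ℤ) + s * w := by exact_mod_cast g7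
    have := dvd_sub a1 a2
    rwa [show (q : ℤ) + s * v - (q + s * w) = s * ((v : ℤ) - w) by ring] at this
  have e2 : (l : ℤ) ∣ r * ((v : ℤ) - w) := by
    have a1 : (l : ℤ) ∣ (p : ℤ) + r * v := by exact_mod_cast g4
    have a2 : (l : ℤ) ∣ (p : ℤ) + r * w := by exact_mod_cast g6
    have := dvd_sub a1 a2
    rwa [show (p : ℤ) + r * v - (p + r * w) = r * ((v : ℤ) - w) by ring] at this
  have hlp : Prime (l : ℤ) := Nat.prime_iff_prime_int.mp hl
  have key : (l : ℤ) ∣ (v : ℤ) - w := by
    rcases hlp.dvd_or_dvd e1 with h | h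
    · rcases hlp.dvd_or_dvd e2 with h' | h'
      · exfalso
        have hd : l ∣ s := by exact_mod_cast h
        have hd' : l ∣ r := by exact_mod_cast h'
        have hp : l ∣ p := (Nat.dvd_add_left (Dvd.dvd.mul_right hd' v)).mp g4
        have hq : l ∣ q := (Nat.dvd_add_left (Dvd.dvd.mul_right hd v)).mp g5
        obtain ⟨h4, h5⟩ := bound g1 g2 g3
        have := Nat.le_of_dvd (by omega) hp
        have hp' : p = l := by omega
        have hs' : s = l := le_antisymm (by omega) (Nat.le_of_dvd (by omega) hd)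
        have hr0 : r = 0 := by omega
        have hq0 : q = 0 := by omega
        rw [hp', hs', hr0, hq0] at g3
        nlinarith
      · exact h'
    · exact h
  have := Int.eq_zero_of_abs_lt_dvd key (by rw [abs_lt]; constructor <;> omega)
  omega

/-- **Hecke operator `T_l`**, `l` prime, as a sum over the cosets. -/
theorem hecke_coset (hT : IsTors T) (h : Dist T e) {l : ℕ} (hl : l.Prime) (x y : A) :
    (l : ℚ) • (∑ v ∈ range l, ∑ i ∈ T l, e (x + i) (y + v • i) + ∑ i ∈ T l, e x (y + i)) =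
      ∑ M ∈ XX l, ev e x y M := by
  rw [XX_split hl, smul_add, h.d2 l hl.pos, smul_sum]
  congr 1
  · refine sum_congr rfl fun v hv => ?_
    rcases Nat.eq_zero_or_pos v with h0 | h0
    · subst h0
      simp only [zero_smul, add_zero]
      rw [h.d2' hl.pos, X_zero hl.pos, sum_singleton]
      unfold ev
      simp
    · refine coset hT h l hl.pos v ?_ x y
      rw [Nat.Prime.coprime_iff_not_dvd hl]
      intro hd
      have := Nat.le_of_dvd h0 hd
      have := mem_range.mp hv
      omega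
  · unfold ev
    simp

end main

section subgroups

variable {T : ℕ → Finset A} {e : A → A → V}

open scoped Classical in
/-- the subgroups of order `l`, `l` prime -/
noncomputable def subs (T : ℕ → Finset A) (l : ℕ) : Finset (AddSubgroup A) :=
  ((T l).erase 0).image AddSubgroup.zmultiples

open scoped Classical in
/-- the elements of `C` -/
noncomputable def el (T : ℕ → Finset A) (l : ℕ) (C : AddSubgroup A) : Finset A :=
  (T l).filter fun c => c ∈ C

lemma mod_smul {l : ℕ} {i : A} (hi : l • i = 0) (n : ℕ) : (n % l) • i = n • i := by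
  conv_rhs => rw [← Nat.div_add_mod n l]
  rw [add_smul, mul_comm, mul_smul, hi, smul_zero, zero_add]

variable {l : ℕ} [hl : Fact l.Prime]

lemma val_mul_smul {i : A} (hi : l • i = 0) (a b : ZMod l) :
    (a * b).val • i = a.val • b.val • i := by
  rw [ZMod.val_mul, mod_smul hi, mul_smul]

lemma val_inv_smul {i : A} (hi : l • i = 0) {a : ZMod l} (ha : a ≠ 0) :
    a.val • a⁻¹.val • i = i := by
  rw [← val_mul_smul hi, mul_inv_cancel₀ ha, ZMod.val_one, one_smul]

lemma val_inv_smul' {i : A} (hi : l • i = 0) {a : ZMod l} (ha : a ≠ 0) :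
    a⁻¹.val • a.val • i = i := by
  rw [← val_mul_smul hi, inv_mul_cancel₀ ha, ZMod.val_one, one_smul]

lemma smul_mem (hT : IsTors T) (n : ℕ) {i : A} (hi : i ∈ T l) : n • i ∈ T l := by
  rw [hT.mem l hl.out.pos] at hi ⊢
  rw [smul_comm, hi, smul_zero]

lemma sum_T_smul {W : Type*} [AddCommMonoid W] (hT : IsTors T) {w : ZMod l} (hw : w ≠ 0)
    (g : A → W) : ∑ i ∈ T l, g (w.val • i) = ∑ i ∈ T l, g i :=
  sum_nbij' (fun i => w.val • i) (fun i => w⁻¹.val • i) (fun _ hi => smul_mem hT _ hi)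
    (fun _ hi => smul_mem hT _ hi)
    (fun _ hi => val_inv_smul' ((hT.mem l hl.out.pos _).mp hi) hw)
    (fun _ hi => val_inv_smul ((hT.mem l hl.out.pos _).mp hi) hw) (fun _ _ => rfl)

lemma sum_range_zmod {W : Type*} [AddCommMonoid W] (g : ℕ → W) :
    ∑ v ∈ range l, g v = ∑ v : ZMod l, g v.val := by
  refine sum_nbij' (fun v => (v : ZMod l)) (fun v => v.val) (fun _ _ => mem_univ _)
    (fun v _ => mem_range.mpr (ZMod.val_lt v)) (fun v hv => ?_) (fun v _ => ?_) (fun v hv => ?_)
  · rw [ZMod.val_natCast, Nat.mod_eq_of_lt (mem_range.mp hv)]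
  · rw [ZMod.natCast_val, ZMod.cast_id', id]
  · rw [ZMod.val_natCast, Nat.mod_eq_of_lt (mem_range.mp hv)]

lemma val_smul_inj {i : A} (hi : l • i = 0) (h0 : i ≠ 0) {a b : ZMod l}
    (h : a.val • i = b.val • i) : a = b := by
  by_contra hab
  have hab' : a - b ≠ 0 := sub_ne_zero.mpr hab
  have h1 : (a - b).val • i = 0 := by
    have h2 : ((a - b) + b).val • i = (a - b).val • i + b.val • i := by
      rw [ZMod.val_add, mod_smul hi, add_smul]
    rw [sub_add_cancel, h] at h2
    exact (left_eq_add.mp (by rw [add_comm]; exact h2)) 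
  apply h0
  rw [← val_inv_smul' hi hab', h1, smul_zero]

lemma sum_el (hT : IsTors T) {i : A} (hi : i ∈ T l) (h0 : i ≠ 0) {W : Type*} [AddCommMonoid W]
    (g : A → W) : ∑ c ∈ el T l (AddSubgroup.zmultiples i), g c = ∑ a : ZMod l, g (a.val • i) := by
  have hi' := (hT.mem l hl.out.pos i).mp hi
  symm
  refine sum_bij (fun a _ => a.val • i) (fun a _ => ?_) (fun a _ b _ h => ?_) (fun c hc => ?_)
    (fun _ _ => rfl)
  · unfold el
    rw [mem_filter]
    exact ⟨smul_mem hT _ hi, AddSubgroup.nsmul_mem _ (AddSubgroup.mem_zmultiples i) _⟩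
  · exact val_smul_inj hi' h0 h
  · unfold el at hc
    rw [mem_filter, AddSubgroup.mem_zmultiples_iff] at hc
    obtain ⟨-, k, hk⟩ := hc
    refine ⟨(k : ZMod l), mem_univ _, ?_⟩
    rw [← hk, ← natCast_zsmul, ZMod.val_intCast]
    have : k = l * (k / l) + k % l := (Int.mul_ediv_add_emod k l).symm
    conv_rhs => rw [this]
    rw [add_smul, mul_comm, mul_smul, natCast_zsmul, hi', smul_zero, zero_add]

lemma card_el (hT : IsTors T) {i : A} (hi : i ∈ T l) (h0 : i ≠ 0) :
    (el T l (AddSubgroup.zmultiples i)).card = l := by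
  have := sum_el hT hi h0 (fun _ => 1)
  simpa using this

lemma zmul_eq (hT : IsTors T) {i j : A} (hi : i ∈ T l) (h0 : i ≠ 0) (hj0 : j ≠ 0)
    (hj : j ∈ el T l (AddSubgroup.zmultiples i)) :
    AddSubgroup.zmultiples j = AddSubgroup.zmultiples i := by
  classical
  have hi' := (hT.mem l hl.out.pos i).mp hi
  obtain ⟨a, ha⟩ : ∃ a : ZMod l, j = a.val • i := by
    have h1 := sum_el hT hi h0 (fun c => if c = j then 1 else 0)
    rw [sum_ite_eq' _ j] at h1
    rw [if_pos hj] at h1
    by_contra hne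
    push Not at hne
    rw [sum_eq_zero (fun a _ => if_neg (fun h => hne a h.symm))] at h1
    exact one_ne_zero h1
  have ha0 : a ≠ 0 := by
    rintro rfl
    apply hj0
    rw [ha, ZMod.val_zero, zero_smul]
  apply le_antisymm
  · rw [AddSubgroup.zmultiples_le, ha]
    exact AddSubgroup.nsmul_mem _ (AddSubgroup.mem_zmultiples i) _
  · rw [AddSubgroup.zmultiples_le, ← val_inv_smul' hi' ha0, ← ha]
    exact AddSubgroup.nsmul_mem _ (AddSubgroup.mem_zmultiples j) _

/-- `C` is in `subs` iff it has order `l`. -/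
lemma mem_subs (hT : IsTors T) (C : AddSubgroup A) : C ∈ subs T l ↔ Nat.card C = l := by
  classical
  unfold subs
  rw [mem_image]
  constructor
  · rintro ⟨i, hi, rfl⟩
    rw [mem_erase] at hi
    rw [Nat.card_zmultiples]
    refine addOrderOf_eq_prime ((hT.mem l hl.out.pos i).mp hi.2) hi.1
  · intro hC
    have hfin : Finite C := Nat.finite_of_card_ne_zero (by rw [hC]; exact hl.out.ne_zero)
    have hnt : Nontrivial C := by
      rw [← Finite.one_lt_card_iff_nontrivial, hC]
      exact hl.out.one_lt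
    obtain ⟨i, hi⟩ := exists_ne (0 : C)
    have hi0 : (i : A) ≠ 0 := fun h => hi (Subtype.ext h)
    have hil : l • (i : A) = 0 := by
      have : l • i = 0 := by rw [← hC]; exact card_nsmul_eq_zero'
      exact_mod_cast congrArg (Subtype.val) this
    refine ⟨i, mem_erase.mpr ⟨hi0, (hT.mem l hl.out.pos _).mpr hil⟩, ?_⟩
    have hle : AddSubgroup.zmultiples (i : A) ≤ C := by
      rw [AddSubgroup.zmultiples_le]; exact i.2
    have h1 : Nat.card (AddSubgroup.zmultiples (i : A)) = Nat.card C := by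
      rw [hC, Nat.card_zmultiples]
      exact addOrderOf_eq_prime hil hi0
    exact AddSubgroup.eq_of_le_of_card_ge hle h1.ge

/-- The pairs of elements of a common subgroup of order `l`. -/
lemma sum_subs (hT : IsTors T) (hc : (T l).card = l ^ 2) (f : A → A → V) :
    ∑ C ∈ subs T l, ∑ c ∈ el T l C, ∑ c' ∈ el T l C, f c c' =
      ∑ v ∈ range l, ∑ i ∈ T l, f i (v • i) + ∑ i ∈ T l, f 0 i := by
  classical
  have hl1 : 1 < l := hl.out.one_lt
  have hz : (0 : A) ∈ T l := by rw [hT.mem l hl.out.pos, smul_zero]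
  -- multiply by `l - 1`
  have hne : ((l : ℚ) - 1) ≠ 0 := by
    have : (1 : ℚ) < l := by exact_mod_cast hl1
    linarith
  have key : ((l : ℚ) - 1) • (∑ C ∈ subs T l, ∑ c ∈ el T l C, ∑ c' ∈ el T l C, f c c') =
      ((l : ℚ) - 1) • (∑ v ∈ range l, ∑ i ∈ T l, f i (v • i) + ∑ i ∈ T l, f 0 i) := by
    have L : ((l : ℚ) - 1) • (∑ C ∈ subs T l, ∑ c ∈ el T l C, ∑ c' ∈ el T l C, f c c') =
        ∑ i ∈ (T l).erase 0, ∑ a : ZMod l, ∑ b : ZMod l, f (a.val • i) (b.val • i) := by
      have e1 : ∀ i ∈ (T l).erase 0, ∑ a : ZMod l, ∑ b : ZMod l, f (a.val • i) (b.val • i) =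
          ∑ c ∈ el T l (AddSubgroup.zmultiples i), ∑ c' ∈ el T l (AddSubgroup.zmultiples i),
            f c c' := by
        intro i hi
        rw [mem_erase] at hi
        rw [sum_el hT hi.2 hi.1]
        refine sum_congr rfl fun a _ => ?_
        rw [sum_el hT hi.2 hi.1]
      rw [sum_congr rfl e1, sum_comp (fun C => ∑ c ∈ el T l C, ∑ c' ∈ el T l C, f c c')
        AddSubgroup.zmultiples, smul_sum]
      refine sum_congr rfl fun C hC => ?_
      obtain ⟨i, hi, rfl⟩ := mem_image.mp hC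
      rw [mem_erase] at hi
      have e2 : ((T l).erase 0).filter (fun j => AddSubgroup.zmultiples j =
          AddSubgroup.zmultiples i) = (el T l (AddSubgroup.zmultiples i)).erase 0 := by
        ext j
        rw [mem_filter, mem_erase, mem_erase]
        constructor
        · rintro ⟨⟨h1, h2⟩, h3⟩
          refine ⟨h1, ?_⟩
          unfold el
          rw [mem_filter, ← h3]
          exact ⟨h2, AddSubgroup.mem_zmultiples j⟩
        · rintro ⟨h1, h2⟩
          refine ⟨⟨h1, ?_⟩, zmul_eq hT hi.2 hi.1 h1 h2⟩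
          unfold el at h2
          exact (mem_filter.mp h2).1
      have hz' : (0 : A) ∈ el T l (AddSubgroup.zmultiples i) := by
        unfold el
        rw [mem_filter]
        exact ⟨hz, AddSubgroup.zero_mem _⟩
      rw [e2, card_erase_of_mem hz', card_el hT hi.2 hi.1, ← Nat.cast_smul_eq_nsmul ℚ,
        Nat.cast_sub hl1.le, Nat.cast_one]
    have R : ((l : ℚ) - 1) • (∑ v ∈ range l, ∑ i ∈ T l, f i (v • i) + ∑ i ∈ T l, f 0 i) =
        ∑ i ∈ T l, (∑ a : ZMod l, ∑ b : ZMod l, f (a.val • i) (b.val • i) - f 0 0) := by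
      have e1 : ∀ g : A → V, ((l : ℚ) - 1) • ∑ i ∈ T l, g i =
          ∑ i ∈ T l, ∑ w ∈ (univ : Finset (ZMod l)).erase 0, g (w.val • i) := by
        intro g
        rw [sum_comm]
        have : ∀ w ∈ (univ : Finset (ZMod l)).erase 0, ∑ i ∈ T l, g (w.val • i) =
            ∑ i ∈ T l, g i := fun w hw => sum_T_smul hT (mem_erase.mp hw).1 g
        rw [sum_congr rfl this, sum_const, card_erase_of_mem (mem_univ _), card_univ, ZMod.card,
          ← Nat.cast_smul_eq_nsmul ℚ, Nat.cast_sub hl1.le, Nat.cast_one]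
      rw [sum_comm, ← sum_add_distrib, e1]
      refine sum_congr rfl fun i hi => ?_
      have hi' := (hT.mem l hl.out.pos i).mp hi
      rw [sum_add_distrib]
      have e2 : ∀ w ∈ (univ : Finset (ZMod l)).erase 0,
          ∑ v ∈ range l, f (w.val • i) (v • w.val • i) =
            ∑ b : ZMod l, f (w.val • i) (b.val • i) := by
        intro w hw
        have hw0 := (mem_erase.mp hw).1
        rw [sum_range_zmod]
        rw [← (mulRight_bijective₀ w hw0).sum_comp (fun b => f (w.val • i) (b.val • i))]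
        refine sum_congr rfl fun v _ => ?_
        rw [val_mul_smul hi']
      rw [sum_congr rfl e2, ← add_sum_erase univ
        (fun a : ZMod l => ∑ b : ZMod l, f (a.val • i) (b.val • i)) (mem_univ 0),
        ← add_sum_erase univ (fun b : ZMod l => f ((0 : ZMod l).val • i) (b.val • i)) (mem_univ 0)]
      simp only [ZMod.val_zero, zero_smul]
      abel
    rw [L, R, sum_sub_distrib, ← add_sum_erase (T l) _ hz]
    simp only [smul_zero, sum_const, hc, card_univ, ZMod.card]
    rw [← mul_smul, ← sq]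
    abel
  have := congrArg (fun x => ((l : ℚ) - 1)⁻¹ • x) key
  simp only [smul_smul, inv_mul_cancel₀ hne, one_smul] at this
  exact this

/-- **Hecke operator `T_l`**, `l` prime. -/
theorem hecke (hT : IsTors T) (hc : (T l).card = l ^ 2) (h : Dist T e) (x y : A) :
    (l : ℚ) • ∑ C ∈ subs T l, ∑ c ∈ el T l C, ∑ c' ∈ el T l C, e (x + c) (y + c') =
      ∑ M ∈ XX l, ev e x y M := by
  rw [sum_subs hT hc (fun c c' => e (x + c) (y + c')), ← hecke_coset hT h hl.out x y]
  simp only [add_zero]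

end subgroups

end Pool.Agent.K4TL
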